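import Pool.Agent.Helper95.HadaMain

/-!
Localised and quantitative form of the main theorem on lacunary series (edited copy of
`Helper95/HadaMain.lean` and of `init` of `Helper95/HadaStep.lean`): in every interval which is not
too short there is a direction along which the series is at least a power (with exponent arbitrarily
close to one) of the sum of the absolute values of its terms.
-/

set_option autoImplicit false

open Filter Topology Set

namespace Pool.Agent.H967HG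

open Pool.Agent.Helper95.Hada

/-- growth comparison -/
theorem growth_lemma {D γ β c : ℝ} (hD : 1 < D) (hβ : D ^ γ < β) (hc : 0 < c) :
    ∀ᶠ n : ℕ in atTop, (D ^ (n + 2)) ^ γ ≤ c * β ^ n := by
  have hD0 : 0 < D := by linarith
  have hp : 0 < D ^ γ := Real.rpow_pos_of_pos hD0 γ
  have h1 : 1 < β / D ^ γ := by rwa [one_lt_div hp]
  have h2 := (tendsto_pow_atTop_atTop_of_one_lt h1).eventually_ge_atTop ((D ^ γ) ^ 2 / c)
  filter_upwards [h2] with n hn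
  have h3 : (D ^ (n + 2)) ^ γ = (D ^ γ) ^ (n + 2) := by
    rw [← Real.rpow_natCast D (n + 2), ← Real.rpow_mul hD0.le, mul_comm, Real.rpow_mul hD0.le,
      Real.rpow_natCast]
  rw [h3, pow_add, mul_comm]
  rw [div_le_iff₀ hc, div_pow, div_mul_eq_mul_div, le_div_iff₀ (by positivity)] at hn
  linarith

theorem limit_lemma' {S : Ser} {d : ℝ} (L : Lev S d) (θ γ : ℝ) (hγ : 0 ≤ γ) (ψ : ℕ → ℝ)
    (hψ : ∀ᶠ n : ℕ in atTop, ((1 + d) ^ (n + 2)) ^ γ ≤ ψ n)
    (n₀ : ℕ) (h : ∀ n, n₀ ≤ n → ∀ s ∈ Icc (L.s (n + 2)) (L.s (n + 1)), ψ n ≤ ‖S.F s θ‖) :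
    ∀ᶠ s in 𝓝[>] (0 : ℝ), (S.M s) ^ γ ≤ ‖S.F s θ‖ := by
  obtain ⟨n1, hn1⟩ := (eventually_atTop.1 hψ)
  set N := max n₀ n1 with hN
  have hmem : Set.Ioc 0 (L.s (N+1)) ∈ 𝓝[>] (0:ℝ) := Ioc_mem_nhdsGT (L.s_pos _)
  filter_upwards [hmem] with s hs
  have hex : ∃ k, L.s k < s := by
    have := (L.tendsto_s.eventually_lt_const hs.1)
    exact this.exists
  classical
  have hk := Nat.find_spec hex
  have hkmin : ∀ m < Nat.find hex, ¬ L.s m < s := fun m hm => Nat.find_min hex hm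
  set k := Nat.find hex with hkdef
  have hk2 : N + 1 < k := by
    have h1 : L.s k < L.s (N+1) := lt_of_lt_of_le hk hs.2
    exact L.anti.lt_iff_gt.1 h1
  clear_value k
  obtain ⟨n, rfl⟩ : ∃ n, k = n + 2 := ⟨k - 2, by omega⟩
  have h2 : s ≤ L.s (n + 1) := not_lt.1 (hkmin (n+1) (by omega))
  have h3 := h n (by have := le_max_left n₀ n1; omega) s ⟨hk.le, h2⟩
  have h4 := hn1 n (by have := le_max_right n₀ n1; omega)
  have h5 : S.M s ≤ (1 + d) ^ (n + 2) := by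
    rw [← L.hM (n + 2)]
    exact S.M_anti' (L.s_pos _) hk.le
  exact ((Real.rpow_le_rpow (S.M_nonneg' s) h5 hγ).trans h4).trans h3

/-- the case of finitely many gaps -/
theorem caseB' (q d Kb : ℝ) (hq : 1 < q) (hd : 0 < d) (hKb : 1 < Kb) (S : Ser) (hS : S.q = q)
    (L : Lev S d) (n₀ : ℕ) (hn : ∀ n, n₀ ≤ n → L.η n ≤ Kb * L.η (n + 1))
    (γ : ℝ) (hγ0 : 0 ≤ γ) (hγ1 : γ < 1) (θc σ : ℝ) (hσ : 0 < σ) :
    ∃ θ : ℝ, |θ - θc| ≤ σ ∧ ∀ᶠ s in 𝓝[>] (0 : ℝ), (S.M s) ^ γ ≤ ‖S.F s θ‖ := by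
  have hDγ : (1 + d) ^ γ < 1 + d := by
    have := Real.rpow_lt_rpow_of_exponent_lt (by linarith : 1 < 1 + d) hγ1
    rwa [Real.rpow_one] at this
  obtain ⟨m, Lm, t₀, hm, ht₀, hav⟩ := avoid_global q d Kb hq hd hKb
  -- choose r
  obtain ⟨r, hr0, hr1, hrm⟩ : ∃ r : ℝ, 0 < r ∧ r < 1 ∧ (1 + d) ^ γ < r ^ m * (1 + d) := by
    have hc : Tendsto (fun r : ℝ => r ^ m * (1 + d)) (𝓝[<] 1) (𝓝 ((1:ℝ) ^ m * (1 + d))) := by
      apply Tendsto.mono_left _ nhdsWithin_le_nhds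
      have : Continuous (fun r : ℝ => r ^ m * (1 + d)) := by fun_prop
      exact this.tendsto 1
    have h1 : ∀ᶠ r in 𝓝[<] (1:ℝ), (1 + d) ^ γ < r ^ m * (1 + d) := by
      apply hc.eventually_const_lt
      rw [one_pow, one_mul]; exact hDγ
    have h2 : ∀ᶠ r in 𝓝[<] (1:ℝ), r ∈ Set.Ioo (0:ℝ) 1 := Ioo_mem_nhdsLT (by norm_num)
    obtain ⟨r, hr⟩ := (h1.and h2).exists
    exact ⟨r, hr.2.1, hr.2.2, hr.1⟩
  set Θ : ℝ := 1 + L.η 0 + (|θc| + σ) with hΘ
  have hΘ0 : 0 < Θ := by have := L.η_pos 0; positivity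
  have habs := abs_nonneg θc
  have hηΘ : ∀ n, L.η n ≤ Θ := by
    intro n
    have h1 : L.η n ≤ L.η 0 := L.η_anti (Nat.zero_le n)
    linarith
  -- choose n1
  obtain ⟨n1, hn1, hn1s⟩ : ∃ n1, n₀ ≤ n1 ∧ 4 * (Lm:ℝ) * (r ^ n1 * (1 - r)⁻¹) < σ / Θ := by
    have hc : Tendsto (fun n : ℕ => 4 * (Lm:ℝ) * (r ^ n * (1 - r)⁻¹)) atTop (𝓝 (4 * (Lm:ℝ) * (0 * (1 - r)⁻¹))) := by
      apply Tendsto.const_mul
      apply Tendsto.mul_const
      exact tendsto_pow_atTop_nhds_zero_of_lt_one hr0.le hr1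
    have h1 : ∀ᶠ n in atTop, 4 * (Lm:ℝ) * (r ^ n * (1 - r)⁻¹) < σ / Θ := by
      apply hc.eventually_lt_const
      rw [zero_mul, mul_zero]
      positivity
    obtain ⟨n, hn⟩ := (h1.and (eventually_ge_atTop n₀)).exists
    exact ⟨n, hn.2, hn.1⟩
  have hB : ∀ n, n₀ ≤ n → ∃ B : Finset ℝ,
      (B.card : ℝ) * (L.η (n + 2) / 9) ≤ Lm * (Θ + L.η (n + 2)) ∧
        ∀ θ ∈ Icc (-Θ) Θ, (∀ b ∈ B, r ^ n * (L.η (n + 2) / 9) < |θ - b|) →
          ∀ s ∈ Icc (L.s (n + 2)) (L.s (n + 1)), t₀ * (r ^ n) ^ m * (1 + d) ^ (n + 1) ≤ ‖S.F s θ‖ := by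
    intro n hn'
    obtain ⟨B, -, h1, h2⟩ := hav S hS L n (hn n hn') (hn (n+1) (by omega)) (r ^ n) Θ (by positivity)
      (pow_le_one₀ hr0.le hr1.le) hΘ0
    exact ⟨B, h1, h2⟩
  choose B hB1 hB2 using fun (n : ℕ) => hB (n + n1) (by omega)
  let U : ℕ → Set ℝ := fun n => ⋃ b ∈ B n, Icc (b - r ^ (n + n1) * (L.η (n + n1 + 2) / 9)) (b + r ^ (n + n1) * (L.η (n + n1 + 2) / 9))
  have hU : ∀ n, MeasureTheory.volume (U n) ≤ ENNReal.ofReal (4 * Lm * Θ * r ^ n1 * r ^ n) := by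
    intro n
    have hρ : 0 < L.η (n + n1 + 2) := L.η_pos _
    calc MeasureTheory.volume (U n) ≤ ∑ b ∈ B n, MeasureTheory.volume (Icc (b - r ^ (n + n1) * (L.η (n + n1 + 2) / 9)) (b + r ^ (n + n1) * (L.η (n + n1 + 2) / 9))) := MeasureTheory.measure_biUnion_finset_le _ _
      _ = ∑ b ∈ B n, ENNReal.ofReal (2 * (r ^ (n + n1) * (L.η (n + n1 + 2) / 9))) := by
          apply Finset.sum_congr rfl
          intro b _
          rw [Real.volume_Icc]
          congr 1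
          ring
      _ = ENNReal.ofReal ((B n).card * (2 * (r ^ (n + n1) * (L.η (n + n1 + 2) / 9)))) := by
          rw [Finset.sum_const, nsmul_eq_mul, ENNReal.ofReal_mul (by positivity)]
          simp
      _ ≤ ENNReal.ofReal (4 * Lm * Θ * r ^ n1 * r ^ n) := by
          apply ENNReal.ofReal_le_ofReal
          have h1 := hB1 n
          have h2 : (Lm:ℝ) * (Θ + L.η (n + n1 + 2)) ≤ Lm * (2 * Θ) := by
            apply mul_le_mul_of_nonneg_left _ (by positivity)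
            linarith [hηΘ (n + n1 + 2)]
          have h3 : ((B n).card : ℝ) * (L.η (n + n1 + 2) / 9) ≤ Lm * (2 * Θ) := h1.trans h2
          have hrp : 0 < r ^ (n + n1) := by positivity
          calc ((B n).card : ℝ) * (2 * (r ^ (n + n1) * (L.η (n + n1 + 2) / 9)))
              = 2 * r ^ (n + n1) * (((B n).card : ℝ) * (L.η (n + n1 + 2) / 9)) := by ring
            _ ≤ 2 * r ^ (n + n1) * (Lm * (2 * Θ)) := by
                apply mul_le_mul_of_nonneg_left h3 (by positivity)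
            _ = 4 * Lm * Θ * r ^ n1 * r ^ n := by rw [pow_add]; ring
  have hsum : HasSum (fun n : ℕ => 4 * (Lm:ℝ) * Θ * r ^ n1 * r ^ n) (4 * (Lm:ℝ) * Θ * r ^ n1 * (1 - r)⁻¹) :=
    (hasSum_geometric_of_lt_one hr0.le hr1).mul_left _
  have hUU : MeasureTheory.volume (⋃ n, U n) ≤ ENNReal.ofReal (4 * (Lm:ℝ) * Θ * r ^ n1 * (1 - r)⁻¹) := by
    calc MeasureTheory.volume (⋃ n, U n) ≤ ∑' n, MeasureTheory.volume (U n) := MeasureTheory.measure_iUnion_le _
      _ ≤ ∑' n, ENNReal.ofReal (4 * Lm * Θ * r ^ n1 * r ^ n) := ENNReal.tsum_le_tsum hU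
      _ = ENNReal.ofReal (∑' n, (4 * Lm * Θ * r ^ n1 * r ^ n)) := by
          rw [ENNReal.ofReal_tsum_of_nonneg (fun n => by positivity) hsum.summable]
      _ = _ := by rw [hsum.tsum_eq]
  obtain ⟨θ, hθ1, hθ2⟩ : ∃ θ ∈ Icc (θc - σ) (θc + σ), θ ∉ ⋃ n, U n := by
    by_contra hcon
    push Not at hcon
    have hsub : Icc (θc - σ) (θc + σ) ⊆ ⋃ n, U n := hcon
    have h1 := (MeasureTheory.measure_mono hsub).trans hUU
    rw [Real.volume_Icc] at h1
    have h2 : θc + σ - (θc - σ) ≤ 4 * (Lm:ℝ) * Θ * r ^ n1 * (1 - r)⁻¹ := by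
      by_contra hlt
      push Not at hlt
      have := (ENNReal.ofReal_lt_ofReal_iff (by linarith : 0 < θc + σ - (θc - σ))).2 hlt
      exact absurd h1 (not_le.2 this)
    have h3 : 4 * (Lm:ℝ) * Θ * r ^ n1 * (1 - r)⁻¹ < σ := by
      calc 4 * (Lm:ℝ) * Θ * r ^ n1 * (1 - r)⁻¹ = Θ * (4 * (Lm:ℝ) * (r ^ n1 * (1 - r)⁻¹)) := by ring
        _ < Θ * (σ / Θ) := mul_lt_mul_of_pos_left hn1s hΘ0
        _ = σ := mul_div_cancel₀ _ hΘ0.ne'
    linarith
  have hθΘ : θ ∈ Icc (-Θ) Θ := by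
    have hη0 := L.η_pos 0
    have h1 := neg_abs_le θc
    have h2 := le_abs_self θc
    constructor
    · rw [hΘ]; linarith [hθ1.1]
    · rw [hΘ]; linarith [hθ1.2]
  refine ⟨θ, by rw [abs_le]; constructor <;> linarith [hθ1.1, hθ1.2],
    limit_lemma' L θ γ hγ0 (fun n => t₀ * (r ^ n) ^ m * (1 + d) ^ (n + 1)) ?_ n1 ?_⟩
  · have : (fun n : ℕ => t₀ * (r ^ n) ^ m * (1 + d) ^ (n + 1)) = fun n : ℕ => (t₀ * (1 + d)) * (r ^ m * (1 + d)) ^ n := by
      funext n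
      rw [← pow_mul, mul_comm n m, pow_mul, mul_pow, pow_succ]
      ring
    have hgr := growth_lemma (D := 1 + d) (γ := γ) (c := t₀ * (1 + d)) (by linarith) hrm
      (by positivity)
    filter_upwards [hgr] with n hn2
    have h3 := congrFun this n
    rw [h3]
    exact hn2
  · intro n hn' s hs
    obtain ⟨k, rfl⟩ : ∃ k, n = k + n1 := ⟨n - n1, by omega⟩
    refine hB2 k θ hθΘ ?_ s hs
    intro b hb
    by_contra hcon
    push Not at hcon
    apply hθ2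
    rw [mem_iUnion]
    refine ⟨k, ?_⟩
    simp only [U, mem_iUnion]
    refine ⟨b, hb, ?_⟩
    rw [abs_le] at hcon
    constructor
    · linarith [hcon.1]
    · linarith [hcon.2]

theorem init' {q : ℝ} (R : Par q) {S : Ser} (hq : S.q = q) (L : Lev S R.d) {g : ℕ}
    (C : Cut L R.Cs R.ε₁ R.κ g) (θc : ℝ) :
    ∃ θ₀ : ℝ, |θ₀ - θc| ≤ R.CV / S.lam 0 + (R.ε / C.Λ) / R.r₀ ∧ Good R L C θ₀ := by
  have hc := R.c_pos
  have hc1 := R.c_le
  have hs : 0 < L.s (g + 1) := L.s_pos _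
  have hd : 0 < R.d := L.d_pos
  have hM : 0 < (1 + R.d) ^ (g + 1) := by positivity
  have hV : 0 ≤ S.m C.K (L.s (g + 1)) := Finset.sum_nonneg fun k _ => S.x_nonneg k _
  have hε : 0 < R.ε := by unfold Par.ε; positivity
  have hκ : 0 < R.κ := by unfold Par.κ; positivity
  have hw : 0 < R.w := by unfold Par.w; positivity
  have hr : 0 < R.r₀ := by unfold Par.r₀; positivity
  have hl2 : 0 < R.ε / C.Λ := div_pos hε C.hΛ
  have hlam := S.lam_pos 0
  have hCV : 0 < R.CV := lt_of_lt_of_le (by norm_num) R.hCV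
  set l : ℝ := R.CV / S.lam 0 + (R.ε / C.Λ) / R.r₀ with hl
  have hl0 : 0 < l := by positivity
  have hll : R.CV ≤ S.lam 0 * l := by
    have h1 : S.lam 0 * l = R.CV + S.lam 0 * ((R.ε / C.Λ) / R.r₀) := by
      rw [hl]; field_simp
    have h2 : 0 ≤ S.lam 0 * ((R.ε / C.Λ) / R.r₀) := by positivity
    linarith
  obtain ⟨μ, β, n, hμ0, hμ, hdr⟩ := R.drift S.lam (fun k => S.x k (L.s (g + 1)))
    (fun k => (S.a k).arg) 0 C.K θc l S.lam_pos (fun k => hq ▸ S.ratio k)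
    (fun k => S.x_nonneg k _) hl0 hll
  have a1 : 24000 * Real.sqrt R.w ≤ R.c := by
    unfold Par.w
    rw [Real.sqrt_sq (by positivity)]
    linarith
  have a2 : 24000 * R.r₀ ^ ((1 : ℝ) / 4) ≤ R.c := by
    unfold Par.r₀
    have : ((R.c / 24000) ^ 4 : ℝ) ^ ((1 : ℝ) / 4) = R.c / 24000 := by
      rw [← Real.rpow_natCast, ← Real.rpow_mul (by positivity)]
      norm_num
    rw [this]; linarith
  have a3 : R.ε / C.Λ ≤ R.r₀ * l := by
    rw [hl]
    have h1 : R.r₀ * (R.CV / S.lam 0 + (R.ε / C.Λ) / R.r₀) = R.r₀ * (R.CV / S.lam 0) + R.ε / C.Λ := by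
      field_simp
    have h2 : 0 ≤ R.r₀ * (R.CV / S.lam 0) := by positivity
    linarith
  have a4 : 4 ≤ μ 0 * l := by
    have h1 : S.lam 0 * l ≤ μ 0 * l := mul_le_mul_of_nonneg_right hμ0 hl0.le
    have := R.hCV
    linarith
  have a5 : Continuous (fun θ : ℝ => ∑ k ∈ Finset.Ico 0 C.K, S.x k (L.s (g + 1)) *
      Real.cos (S.lam k * θ + (S.a k).arg)) := by
    fun_prop
  have a6 : ∀ θ : ℝ, (fun θ : ℝ => ∑ k ∈ Finset.Ico 0 C.K, S.x k (L.s (g + 1)) *
      Real.cos (S.lam k * θ + (S.a k).arg)) θ ≤ S.m C.K (L.s (g + 1)) := by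
    intro θ
    simp only [Ser.m, Finset.range_eq_Ico]
    refine Finset.sum_le_sum fun k _ => ?_
    have := Real.cos_le_one (S.lam k * θ + (S.a k).arg)
    have := S.x_nonneg k (L.s (g + 1))
    nlinarith
  have a7 : 4 * R.c * S.m C.K (L.s (g + 1)) ≤ (1 / (2 * l)) * ∫ θ in (θc - l)..(θc + l),
      rp μ β n θ * (fun θ : ℝ => ∑ k ∈ Finset.Ico 0 C.K, S.x k (L.s (g + 1)) *
      Real.cos (S.lam k * θ + (S.a k).arg)) θ := by
    rw [← R.c_eq]
    simpa only [Ser.m, Finset.range_eq_Ico] using hdr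
  obtain ⟨t, htc, ht, -⟩ := select R.c R.w R.r₀ hc hc1 hw a1 hr a2 μ β n (hlam.trans_le hμ0) hμ
    θc l (R.ε / C.Λ) ((1 + R.d) ^ (g + 1)) (S.m C.K (L.s (g + 1))) R.κ hl2 a3 a4 hM hκ hV
    _ a5 a6 a7 ∅ (by simp) (by simpa [W] using hw) ∅ (fun _ => 0) (fun _ => 0) (fun _ => ∅) 0
    (by simp) (by simp) (by simp) (by simp) (by simp) (by simp; positivity)
  refine ⟨t, htc, fun θ hθ => ?_⟩
  have h1 : ‖S.P C.K (L.s (g + 1)) t - S.P C.K (L.s (g + 1)) θ‖ ≤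
      C.Λ * |t - θ| * S.m C.K (L.s (g + 1)) := S.norm_P_sub_P_le C.K C.Λ C.hK _ _ _
  have h2 : ‖S.P C.K (L.s (g + 1)) t‖ ≤ ‖S.P C.K (L.s (g + 1)) θ‖ +
      ‖S.P C.K (L.s (g + 1)) t - S.P C.K (L.s (g + 1)) θ‖ := by
    have := norm_add_le (S.P C.K (L.s (g + 1)) θ) (S.P C.K (L.s (g + 1)) t - S.P C.K (L.s (g + 1)) θ)
    simpa using this
  have h3 : (S.P C.K (L.s (g + 1)) t).re ≤ ‖S.P C.K (L.s (g + 1)) t‖ := Complex.re_le_norm _
  rw [S.re_P] at h3
  have h4 : C.Λ * |t - θ| ≤ 2 * R.ε := by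
    rw [abs_sub_comm]
    calc C.Λ * |θ - t| ≤ C.Λ * (2 * (R.ε / C.Λ)) := mul_le_mul_of_nonneg_left hθ C.hΛ.le
      _ = 2 * R.ε := by have := C.hΛ; field_simp
  have h5 : C.Λ * |t - θ| * S.m C.K (L.s (g + 1)) ≤ 2 * R.ε * S.m C.K (L.s (g + 1)) :=
    mul_le_mul_of_nonneg_right h4 hV
  have h6 : 2 * R.ε ≤ R.c := by
    unfold Par.ε; nlinarith
  have h7 : R.κ ≤ R.κ' := by
    unfold Par.κ Par.κ'; linarith
  have h8 : 2 * R.ε * S.m C.K (L.s (g + 1)) ≤ R.c * S.m C.K (L.s (g + 1)) :=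
    mul_le_mul_of_nonneg_right h6 hV
  have h9 : R.κ * (1 + R.d) ^ (g + 1) ≤ R.κ' * (1 + R.d) ^ (g + 1) :=
    mul_le_mul_of_nonneg_right h7 hM.le
  nlinarith

/-- main theorem on series, localised -/
theorem main_loc (S : Ser) (hS : Tendsto S.M (𝓝[>] 0) atTop) (R : Par S.q)
    (γ : ℝ) (hγ0 : 0 ≤ γ) (hγ1 : γ < 1) (θc σ : ℝ) (hσ : 0 < σ) :
    ∃ θ : ℝ, |θ - θc| ≤ σ + (R.CV + R.ε / R.r₀ + 2 * R.ε) / S.lam 0 ∧
      ∀ᶠ s in 𝓝[>] (0 : ℝ), (S.M s) ^ γ ≤ ‖S.F s θ‖ := by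
  classical
  have hc := R.c_pos
  have hd : 0 < R.d := by unfold Par.d; linarith
  have hκ : 0 < R.κ := by unfold Par.κ; linarith
  have hε : 0 < R.ε := by unfold Par.ε; positivity
  have hε₁ : 0 < R.ε₁ := by
    unfold Par.ε₁
    apply Real.log_pos
    nlinarith [mul_pos hκ hd]
  have hw : 0 < R.w := by unfold Par.w; positivity
  have hr₀ : 0 < R.r₀ := by unfold Par.r₀; positivity
  have hw1 : R.w < 1 := by
    unfold Par.w
    have h1 : R.c / 24000 < 1 := by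
      have := R.c_le
      linarith
    have h0 : 0 < R.c / 24000 := by positivity
    nlinarith
  have hr₀1 : R.r₀ ≤ 1 / 4 := by
    unfold Par.r₀
    have h1 : R.c / 24000 ≤ 1 / 4 := by
      have := R.c_le
      linarith
    have h0 : 0 < R.c / 24000 := by positivity
    calc (R.c / 24000) ^ 4 ≤ (1 / 4) ^ 4 := pow_le_pow_left₀ h0.le h1 4
      _ ≤ 1 / 4 := by norm_num
  obtain ⟨L⟩ := exists_lev S hS R.d hd
  obtain ⟨Kb, hKb, hcut⟩ := exists_cut R.d hd R.Cs R.ε₁ R.κ R.one_lt_Cs hε₁ hκ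
  obtain ⟨m, Lm, t₀, hm, ht₀, hav⟩ := avoid_global S.q R.d Kb S.one_lt_q hd hKb
  by_cases hB : ∃ n₀, ∀ n, n₀ ≤ n → L.η n ≤ Kb * L.η (n + 1)
  · obtain ⟨n₀, hn⟩ := hB
    obtain ⟨θ, h1, h2⟩ := caseB' S.q R.d Kb S.one_lt_q hd hKb S rfl L n₀ hn γ hγ0 hγ1 θc σ hσ
    have hlam := S.lam_pos 0
    have hCV : 0 < R.CV := lt_of_lt_of_le (by norm_num) R.hCV
    have h3 : 0 ≤ (R.CV + R.ε / R.r₀ + 2 * R.ε) / S.lam 0 := by positivity
    exact ⟨θ, by linarith, h2⟩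
  push Not at hB
  -- the ratio r
  have hDγ : (1 + R.d) ^ γ < 1 + R.d := by
    have := Real.rpow_lt_rpow_of_exponent_lt (by linarith : 1 < 1 + R.d) hγ1
    rwa [Real.rpow_one] at this
  obtain ⟨r, hr0, hr1, hrm⟩ : ∃ r : ℝ, 0 < r ∧ r < 1 ∧ (1 + R.d) ^ γ < r ^ m * (1 + R.d) := by
    have hcont : Tendsto (fun r : ℝ => r ^ m * (1 + R.d)) (𝓝[<] 1) (𝓝 ((1 : ℝ) ^ m * (1 + R.d))) := by
      apply Tendsto.mono_left _ nhdsWithin_le_nhds
      exact (Continuous.tendsto (by fun_prop) 1)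
    have h1 : (1 + R.d) ^ γ < (1 : ℝ) ^ m * (1 + R.d) := by rw [one_pow, one_mul]; exact hDγ
    have h2 := hcont.eventually (lt_mem_nhds h1)
    have h3 : ∀ᶠ r : ℝ in 𝓝[<] 1, r < 1 := self_mem_nhdsWithin
    have h4 : ∀ᶠ r : ℝ in 𝓝[<] 1, 0 < r := nhdsWithin_le_nhds (lt_mem_nhds one_pos)
    obtain ⟨r, h⟩ := (h2.and (h3.and h4)).exists
    exact ⟨r, h.2.2, h.2.1, h.1⟩
  -- smallness of the tail of the sum of square roots
  have hsq : Summable (fun n : ℕ => Real.sqrt (r ^ n)) := by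
    have : (fun n : ℕ => Real.sqrt (r ^ n)) = fun n => (Real.sqrt r) ^ n := by
      funext n
      rw [Real.sqrt_eq_iff_mul_self_eq (by positivity) (by positivity), ← mul_pow, Real.mul_self_sqrt hr0.le]
    rw [this]
    apply summable_geometric_of_lt_one (Real.sqrt_nonneg _)
    rw [Real.sqrt_lt' one_pos]
    simpa using hr1
  have hcw : 0 < R.c * R.w := mul_pos hc hw
  obtain ⟨n₁, hn₁⟩ : ∃ n₁ : ℕ, ∀ N : Finset ℕ, (∀ n ∈ N, n₁ ≤ n) →
      24000 * (Lm : ℝ) * ∑ n ∈ N, Real.sqrt (r ^ n) ≤ R.c * R.w := by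
    have hpos : 0 < R.c * R.w / (24000 * (Lm : ℝ) + 1) := by positivity
    obtain ⟨s, hs⟩ := (summable_iff_vanishing_norm.1 hsq) _ hpos
    obtain ⟨b, hb⟩ := s.exists_nat_subset_range
    refine ⟨b, fun N hN => ?_⟩
    have hdisj : Disjoint N s := by
      rw [Finset.disjoint_left]
      intro a ha has
      have h1 := Finset.mem_range.1 (hb has)
      have h2 := hN a ha
      omega
    have h3 := hs N hdisj
    rw [Real.norm_eq_abs] at h3
    have h4 := (abs_lt.1 h3).2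
    rw [lt_div_iff₀ (by positivity)] at h4
    have h5 : 0 ≤ ∑ n ∈ N, Real.sqrt (r ^ n) := Finset.sum_nonneg (fun _ _ => Real.sqrt_nonneg _)
    nlinarith
  obtain ⟨n₂, hn₂⟩ : ∃ n₂ : ℕ, ∀ n, n₂ ≤ n → r ^ n ≤ 1 / 2 := by
    have := tendsto_pow_atTop_nhds_zero_of_lt_one hr0.le hr1
    have h2 := this.eventually (gt_mem_nhds (show (0 : ℝ) < 1 / 2 by norm_num))
    obtain ⟨n₂, h⟩ := eventually_atTop.1 h2
    exact ⟨n₂, fun n hn => (h n hn).le⟩
  -- gaps
  obtain ⟨g₀, hg₀, hg₀'⟩ := hB (max n₁ n₂)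
  have hnext : ∀ g, ∃ g', g < g' ∧ Kb * L.η (g' + 1) ≤ L.η g' ∧
      ∀ n, g < n → n < g' → L.η n ≤ Kb * L.η (n + 1) := by
    intro g
    have hex : ∃ g', g < g' ∧ Kb * L.η (g' + 1) < L.η g' := by
      obtain ⟨g', h1, h2⟩ := hB (g + 1)
      exact ⟨g', by omega, h2⟩
    refine ⟨Nat.find hex, (Nat.find_spec hex).1, (Nat.find_spec hex).2.le, fun n h1 h2 => ?_⟩
    have := Nat.find_min hex h2
    push Not at this
    exact this h1
  choose next hn1 hn2 hn3 using hnext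
  let G : ℕ → ℕ := fun i => Nat.rec g₀ (fun _ g => next g) i
  have hG0 : G 0 = g₀ := rfl
  have hGs : ∀ i, G (i + 1) = next (G i) := fun i => rfl
  have hGlt : ∀ i, G i < G (i + 1) := fun i => hn1 (G i)
  have hGmono : StrictMono G := strictMono_nat_of_lt_succ hGlt
  have hGgap : ∀ i, Kb * L.η (G i + 1) ≤ L.η (G i) := by
    intro i
    cases i with
    | zero => exact hg₀'.le
    | succ i => exact hn2 (G i)
  have hGbet : ∀ i n, G i < n → n < G (i + 1) → L.η n ≤ Kb * L.η (n + 1) := fun i n => hn3 (G i) n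
  let C : ∀ i, Cut L R.Cs R.ε₁ R.κ (G i) := fun i => Classical.choice (hcut S L (G i) (hGgap i))
  obtain ⟨θ₀, hθ₀c, hθ₀⟩ := init' R rfl L (C 0) θc
  let ℓ : ℕ → ℝ := fun i => R.ε / (C i).Λ
  have hℓpos : ∀ i, 0 < ℓ i := fun i => div_pos hε (C i).hΛ
  let Θ : ℝ := |θ₀| + 2 * ℓ 0 + 1
  have hΘ : 0 < Θ := by
    have := hℓpos 0
    have := abs_nonneg θ₀
    simp only [Θ]
    linarith
  have hBex : ∀ n : ℕ, ∃ B : Finset ℝ, (L.η n ≤ Kb * L.η (n + 1) → L.η (n + 1) ≤ Kb * L.η (n + 2) →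
      (∀ y : ℝ, (B.filter (fun b => |b - y| ≤ (L.η (n + 2) / 9) / 2)).card ≤ Lm) ∧
        ∀ θ ∈ Icc (-Θ) Θ, (∀ b ∈ B, r ^ n * (L.η (n + 2) / 9) < |θ - b|) →
          ∀ s ∈ Icc (L.s (n + 2)) (L.s (n + 1)), t₀ * (r ^ n) ^ m * (1 + R.d) ^ (n + 1) ≤ ‖S.F s θ‖) := by
    intro n
    by_cases h1 : L.η n ≤ Kb * L.η (n + 1)
    · by_cases h2 : L.η (n + 1) ≤ Kb * L.η (n + 2)
      · obtain ⟨B, hb1, -, hb3⟩ := hav S rfl L n h1 h2 (r ^ n) Θ (by positivity)
          (pow_le_one₀ hr0.le hr1.le) hΘ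
        exact ⟨B, fun _ _ => ⟨hb1, hb3⟩⟩
      · exact ⟨∅, fun _ h => absurd h h2⟩
    · exact ⟨∅, fun h _ => absurd h h1⟩
  choose B hBB using hBex
  let N : ℕ → Finset ℕ := fun i => (Finset.Ioo (G i) (G (i + 1))).filter (fun n => n + 1 < G (i + 1))
  have hNmem : ∀ i n, n ∈ N i ↔ G i < n ∧ n + 1 < G (i + 1) := by
    intro i n
    simp only [N, Finset.mem_filter, Finset.mem_Ioo]
    constructor
    · rintro ⟨⟨h1, h2⟩, h3⟩; exact ⟨h1, h3⟩
    · rintro ⟨h1, h3⟩; exact ⟨⟨h1, by omega⟩, h3⟩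
  let Fam : ℕ → Finset (ℝ × ℝ) := fun i =>
    (N i).biUnion (fun n => (B n).image (fun b => (b, r ^ n * (L.η (n + 2) / 9))))
  let Pf : ℕ → Finset (ℝ × ℝ) := fun i => Nat.rec ∅ (fun j P => P ∪ Fam j) i
  have hPf0 : Pf 0 = ∅ := rfl
  have hPfs : ∀ i, Pf (i + 1) = Pf i ∪ Fam i := fun i => rfl
  have hFampos : ∀ i, ∀ b ∈ Fam i, 0 < b.2 := by
    intro i b hb
    simp only [Fam, Finset.mem_biUnion, Finset.mem_image] at hb
    obtain ⟨n, -, b', -, rfl⟩ := hb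
    have := L.η_pos (n + 2)
    positivity
  have hPfpos : ∀ i, ∀ b ∈ Pf i, 0 < b.2 := by
    intro i
    induction i with
    | zero => intro b hb; simp [hPf0] at hb
    | succ i ih =>
      intro b hb
      rw [hPfs, Finset.mem_union] at hb
      rcases hb with hb | hb
      · exact ih b hb
      · exact hFampos i b hb
  let Q : ℕ → ℝ → Prop := fun i θ => Good R L (C i) θ ∧ W (Pf i) θ (ℓ i) < R.w
  have hQ0 : Q 0 θ₀ := ⟨hθ₀, by simp [hPf0, W, hw]⟩
  have hGge : ∀ i, max n₁ n₂ ≤ G i := by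
    intro i
    exact hg₀.trans (hGmono.monotone (Nat.zero_le i))
  have hstep : ∀ i θ, Q i θ → ℓ (i + 1) ≤ R.r₀ * ℓ i ∧ ∃ θ', |θ' - θ| ≤ ℓ i ∧ Q (i + 1) θ' := by
    rintro i θ ⟨hgood, hWi⟩
    have hge : ∀ n ∈ N i, max n₁ n₂ ≤ n := by
      intro n hn
      exact (hGge i).trans ((hNmem i n).1 hn).1.le
    obtain ⟨h1, θ', h2, h3, h4⟩ := step R rfl L (hGlt i) (C i) (C (i + 1)) θ hgood (Pf i) (hPfpos i) hWi
      (N i) (fun n hn => (hNmem i n).1 hn) (fun n => r ^ n) B Lm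
      (by
        intro n hn
        obtain ⟨ha, hb⟩ := (hNmem i n).1 hn
        exact (hBB n (hGbet i n ha (by omega)) (hGbet i (n + 1) (by omega) hb)).1)
      (fun n _ => by positivity)
      (fun n hn => hn₂ n ((le_max_right _ _).trans (hge n hn)))
      (hn₁ (N i) (fun n hn => (le_max_left _ _).trans (hge n hn)))
    exact ⟨h1, θ', h2, h3, by rw [hPfs]; exact h4⟩
  let st : (i : ℕ) → {θ // Q i θ} := fun i =>
    Nat.rec (motive := fun i => {θ // Q i θ}) ⟨θ₀, hQ0⟩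
      (fun i s => ⟨Classical.choose (hstep i s.1 s.2).2, (Classical.choose_spec (hstep i s.1 s.2).2).2⟩) i
  let th : ℕ → ℝ := fun i => (st i).1
  have hth0 : th 0 = θ₀ := rfl
  have hthQ : ∀ i, Q i (th i) := fun i => (st i).2
  have hths : ∀ i, |th (i + 1) - th i| ≤ ℓ i := fun i =>
    (Classical.choose_spec (hstep i (st i).1 (st i).2).2).1
  have hℓs : ∀ i, ℓ (i + 1) ≤ R.r₀ * ℓ i := fun i => (hstep i (st i).1 (st i).2).1
  have hℓ4 : ∀ i, ℓ (i + 1) ≤ ℓ i / 4 := by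
    intro i
    have := hℓs i
    have h2 := hℓpos i
    nlinarith
  have hℓgeo : ∀ i, ℓ i ≤ ℓ 0 * (1 / 4) ^ i := by
    intro i
    induction i with
    | zero => simp
    | succ i ih =>
      have := hℓ4 i
      rw [pow_succ]
      linarith
  have hnest : ∀ i, Icc (th (i + 1) - 2 * ℓ (i + 1)) (th (i + 1) + 2 * ℓ (i + 1)) ⊆
      Icc (th i - 2 * ℓ i) (th i + 2 * ℓ i) := by
    intro i x hx
    have h1 := abs_le.1 (hths i)
    have h2 := hℓ4 i
    have h3 := hℓpos i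
    have h4 := hℓpos (i + 1)
    constructor
    · have := hx.1; linarith [h1.1]
    · have := hx.2; linarith [h1.2]
  obtain ⟨θ, hθ⟩ : (⋂ i, Icc (th i - 2 * ℓ i) (th i + 2 * ℓ i)).Nonempty := by
    apply IsCompact.nonempty_iInter_of_sequence_nonempty_isCompact_isClosed
    · exact hnest
    · intro i
      refine ⟨th i, ?_, ?_⟩ <;> linarith [hℓpos i]
    · exact isCompact_Icc
    · intro i; exact isClosed_Icc
  rw [mem_iInter] at hθ
  have hθi : ∀ i, |θ - th i| ≤ 2 * ℓ i := by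
    intro i
    rw [abs_le]
    constructor
    · linarith [(hθ i).1]
    · linarith [(hθ i).2]
  have hθΘ : θ ∈ Icc (-Θ) Θ := by
    have h1 := hθ 0
    rw [hth0] at h1
    have h2 := neg_abs_le θ₀
    have h3 := le_abs_self θ₀
    constructor
    · have := h1.1; simp only [Θ]; linarith
    · have := h1.2; simp only [Θ]; linarith
  -- the point avoids all bad intervals
  have hPfmono : ∀ i j, i ≤ j → Pf i ⊆ Pf j := by
    intro i j hij
    induction j, hij using Nat.le_induction with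
    | base => exact Finset.Subset.refl _
    | succ j _ ih =>
      rw [hPfs]
      exact ih.trans Finset.subset_union_left
  have havd : ∀ i, ∀ n ∈ N i, ∀ b ∈ B n, r ^ n * (L.η (n + 2) / 9) < |θ - b| := by
    intro i n hn b hb
    by_contra hcon
    push Not at hcon
    set h := r ^ n * (L.η (n + 2) / 9) with hh
    have hhpos : 0 < h := by
      have := L.η_pos (n + 2)
      positivity
    have hmem : (b, h) ∈ Fam i := by
      simp only [Fam, Finset.mem_biUnion, Finset.mem_image]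
      exact ⟨n, hn, b, hb, rfl⟩
    -- choose j > i with ℓ j ≤ h
    obtain ⟨j, hj⟩ : ∃ j, ℓ 0 * (1 / 4) ^ j < h := by
      have h1 : Tendsto (fun j : ℕ => ℓ 0 * (1 / 4 : ℝ) ^ j) atTop (𝓝 (ℓ 0 * 0)) :=
        (tendsto_pow_atTop_nhds_zero_of_lt_one (by norm_num) (by norm_num)).const_mul _
      rw [mul_zero] at h1
      exact (h1.eventually (gt_mem_nhds hhpos)).exists
    set k := max (i + 1) j with hk
    have hk1 : ℓ k ≤ h := by
      have h1 := hℓgeo k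
      have h2 : (1 / 4 : ℝ) ^ k ≤ (1 / 4) ^ j :=
        pow_le_pow_of_le_one (by norm_num) (by norm_num) (le_max_right _ _)
      have h3 := hℓpos 0
      nlinarith
    have hmem2 : (b, h) ∈ Pf k := by
      apply hPfmono (i + 1) k (le_max_left _ _)
      rw [hPfs]
      exact Finset.mem_union_right _ hmem
    have hW := (hthQ k).2
    have hle : (1 : ℝ) ≤ W (Pf k) (th k) (ℓ k) := by
      unfold W
      have hterm : (1 : ℝ) ≤ (if |((b, h) : ℝ × ℝ).1 - th k| ≤ 2 * ℓ k + ((b, h) : ℝ × ℝ).2 then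
          min 1 (Real.sqrt (((b, h) : ℝ × ℝ).2 / ℓ k)) else 0) := by
        have hcond : |((b, h) : ℝ × ℝ).1 - th k| ≤ 2 * ℓ k + ((b, h) : ℝ × ℝ).2 := by
          have h1 := hθi k
          have h2 : |b - th k| ≤ |θ - b| + |θ - th k| := by
            have : b - th k = -(θ - b) + (θ - th k) := by ring
            rw [this]
            calc |-(θ - b) + (θ - th k)| ≤ |-(θ - b)| + |θ - th k| := abs_add_le _ _
              _ = |θ - b| + |θ - th k| := by rw [abs_neg]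
          simp only
          linarith
        rw [if_pos hcond]
        apply le_min le_rfl
        rw [Real.one_le_sqrt]
        rw [le_div_iff₀ (hℓpos k)]
        simp only
        linarith
      refine hterm.trans ?_
      apply Finset.single_le_sum (f := fun b : ℝ × ℝ => if |b.1 - th k| ≤ 2 * ℓ k + b.2 then
          min 1 (Real.sqrt (b.2 / ℓ k)) else 0) _ hmem2
      intro b' _
      show 0 ≤ (if |b'.1 - th k| ≤ 2 * ℓ k + b'.2 then min 1 (Real.sqrt (b'.2 / ℓ k)) else 0)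
      split_ifs
      · exact le_min zero_le_one (Real.sqrt_nonneg _)
      · exact le_rfl
    linarith
  have hloc : |θ - θc| ≤ σ + (R.CV + R.ε / R.r₀ + 2 * R.ε) / S.lam 0 := by
    have hlam := S.lam_pos 0
    have hK0 : 0 < (C 0).K := by
      rw [Nat.pos_iff_ne_zero]
      intro h0
      have h1 := (C 0).tail_le
      rw [h0] at h1
      simp only [Ser.m, Finset.range_zero, Finset.sum_empty, sub_zero] at h1
      have h2 : 0 < (1 + R.d) ^ (G 0 + 1) := by positivity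
      have h3 : 2 * R.d ≤ 1 / 320 := by
        have := R.c_le
        unfold Par.d; linarith
      nlinarith
    have hΛ : S.lam 0 ≤ (C 0).Λ := (C 0).hK 0 hK0
    have h1 : R.ε / (C 0).Λ ≤ R.ε / S.lam 0 := div_le_div_of_nonneg_left hε.le hlam hΛ
    have h2 : (R.ε / (C 0).Λ) / R.r₀ ≤ (R.ε / S.lam 0) / R.r₀ :=
      div_le_div_of_nonneg_right h1 hr₀.le
    have h3 := hθi 0
    rw [hth0] at h3
    have h4 : |θ - θc| ≤ |θ - θ₀| + |θ₀ - θc| := by
      have : θ - θc = (θ - θ₀) + (θ₀ - θc) := by ring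
      rw [this]
      exact abs_add_le _ _
    have h5 : ℓ 0 = R.ε / (C 0).Λ := rfl
    have h6 : (R.CV + R.ε / R.r₀ + 2 * R.ε) / S.lam 0 =
        R.CV / S.lam 0 + (R.ε / S.lam 0) / R.r₀ + 2 * (R.ε / S.lam 0) := by
      field_simp
    rw [h6]
    linarith
  refine ⟨θ, hloc, ?_⟩
  have hψ : ∀ᶠ n : ℕ in atTop, ((1 + R.d) ^ (n + 2)) ^ γ ≤
      min ((R.c / 4) * (1 + R.d) ^ (n + 1)) (t₀ * (r ^ m * (1 + R.d)) ^ n) := by
    have h1 := growth_lemma (D := 1 + R.d) (γ := γ) (β := 1 + R.d)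
      (c := (R.c / 4) * (1 + R.d)) (by linarith) hDγ (by positivity)
    have h2 := growth_lemma (D := 1 + R.d) (γ := γ) (by linarith) hrm ht₀
    filter_upwards [h1, h2] with n ha hb
    refine le_min (ha.trans (le_of_eq ?_)) hb
    rw [pow_succ]
    ring
  apply limit_lemma' L θ γ hγ0 _ hψ (G 0)
  intro n hn s hs
  -- find the window
  obtain ⟨i, hi1, hi2⟩ : ∃ i : ℕ, G i ≤ n ∧ n < G (i + 1) := by
    have hex : ∃ j, n < G j := ⟨n + 1, by
      have := hGmono.id_le (n + 1)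
      simp only [id] at this
      omega⟩
    have hpos : 0 < Nat.find hex := by
      rw [Nat.pos_iff_ne_zero]
      intro h0
      have := Nat.find_spec hex
      rw [h0] at this
      omega
    refine ⟨Nat.find hex - 1, ?_, ?_⟩
    · have := Nat.find_min hex (m := Nat.find hex - 1) (by omega)
      omega
    · have h1 : Nat.find hex - 1 + 1 = Nat.find hex := by omega
      rw [h1]
      exact Nat.find_spec hex
  rcases eq_or_ne n (G i) with hA | hA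
  · subst hA
    refine (min_le_left _ _).trans ?_
    exact Good.left (hthQ i).1 θ (hθi i) s hs
  rcases eq_or_ne (n + 1) (G (i + 1)) with hA2 | hA2
  · refine (min_le_left _ _).trans ?_
    have h1 := Good.right (hthQ (i + 1)).1 θ (hθi (i + 1)) s
      (by rw [← hA2]; exact hs)
    refine le_trans ?_ h1
    have h2 : (1 + R.d) ^ (n + 1) ≤ (1 + R.d) ^ (G (i + 1) + 1) :=
      pow_le_pow_right₀ (by linarith) (by omega)
    have : 0 < R.c / 4 := by positivity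
    nlinarith
  · have hmem : n ∈ N i := (hNmem i n).2 ⟨by omega, by omega⟩
    have h1 := (hBB n (hGbet i n (by omega) (by omega)) (hGbet i (n + 1) (by omega) (by omega))).2 θ hθΘ
      (havd i n hmem) s hs
    refine (min_le_right _ _).trans (le_trans ?_ h1)
    rw [mul_pow, ← pow_mul, ← pow_mul, mul_comm n m, pow_succ]
    have h3 : 0 < (1 + R.d) ^ n := by positivity
    have h4 : 0 < r ^ (m * n) := by positivity
    have h5 : (1 + R.d) ^ n ≤ (1 + R.d) ^ n * (1 + R.d) := by nlinarith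
    calc t₀ * (r ^ (m * n) * (1 + R.d) ^ n) = (t₀ * r ^ (m * n)) * (1 + R.d) ^ n := by ring
      _ ≤ (t₀ * r ^ (m * n)) * ((1 + R.d) ^ n * (1 + R.d)) :=
          mul_le_mul_of_nonneg_left h5 (by positivity)

end Pool.Agent.H967HG
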