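import Pool.Agent.H967HG.Loc

/-!
Passage to tails: the directions of almost maximal growth are dense.
-/

set_option autoImplicit false

open Filter Topology Set

namespace Pool.Agent.H967HG

open Pool.Agent.Helper95.Hada

/-- the series without its first `K` terms -/
def tail (S : Ser) (K : ℕ) : Ser where
  q := S.q
  lam := fun k => S.lam (k + K)
  a := fun k => S.a (k + K)
  one_lt_q := S.one_lt_q
  lam_pos := fun k => S.lam_pos _
  ratio := fun k => by
    have := S.ratio (k + K)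
    rwa [add_right_comm] at this
  summ := fun s hs => (summable_nat_add_iff K).2 (S.summ s hs)

theorem tail_M (S : Ser) (K : ℕ) {s : ℝ} (hs : 0 < s) : S.M s = S.m K s + (tail S K).M s := by
  have h := S.tail_eq K hs
  have h2 : (tail S K).M s = ∑' k, S.x (k + K) s := rfl
  rw [h2, ← h]
  ring

theorem tail_F (S : Ser) (K : ℕ) {s : ℝ} (hs : 0 < s) (θ : ℝ) :
    S.F s θ = S.P K s θ + (tail S K).F s θ := by
  have hsum : Summable (fun k => S.tm k s θ) := by
    apply Summable.of_norm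
    refine (S.summ_x hs).congr fun k => ?_
    rw [S.norm_tm]
  exact (hsum.sum_add_tsum_nat_add K).symm

theorem m_le_const (S : Ser) (K : ℕ) {s : ℝ} (hs : 0 < s) :
    S.m K s ≤ ∑ k ∈ Finset.range K, ‖S.a k‖ := by
  unfold Ser.m Ser.x
  refine Finset.sum_le_sum fun k _ => ?_
  have h1 : Real.exp (-(S.lam k * s)) ≤ 1 := by
    rw [Real.exp_le_one_iff]
    have := mul_pos (S.lam_pos k) hs
    linarith
  exact mul_le_of_le_one_right (norm_nonneg _) h1

theorem P_le_const (S : Ser) (K : ℕ) {s : ℝ} (hs : 0 < s) (θ : ℝ) :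
    ‖S.P K s θ‖ ≤ ∑ k ∈ Finset.range K, ‖S.a k‖ := by
  refine le_trans ?_ (m_le_const S K hs)
  rw [S.P_eq]
  refine (norm_sum_le _ _).trans (Finset.sum_le_sum fun k _ => ?_)
  rw [S.norm_tm]

/-- absorbing a bounded perturbation into the exponent -/
theorem absorb {γ γ' D : ℝ} (hγ : 0 ≤ γ) (hγ1 : γ ≤ 1) (h : γ < γ') (hD : 0 ≤ D) :
    ∀ᶠ x : ℝ in atTop, (D + x) ^ γ ≤ x ^ γ' - D := by
  have h1 := (tendsto_rpow_atTop (sub_pos.2 h)).eventually_ge_atTop (2 + D)
  filter_upwards [h1, eventually_ge_atTop (max D 1)] with x hx hx1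
  have hx1' : 1 ≤ x := (le_max_right _ _).trans hx1
  have hxD : D ≤ x := (le_max_left _ _).trans hx1
  have hx0 : 0 < x := by linarith
  have h2 : (D + x) ^ γ ≤ (2 * x) ^ γ := Real.rpow_le_rpow (by linarith) (by linarith) hγ
  have h3 : (2 * x) ^ γ = 2 ^ γ * x ^ γ := Real.mul_rpow (by norm_num) hx0.le
  have h4 : (2 : ℝ) ^ γ ≤ 2 := by
    have := Real.rpow_le_rpow_of_exponent_le (by norm_num : (1 : ℝ) ≤ 2) hγ1
    rwa [Real.rpow_one] at this
  have h5 : 1 ≤ x ^ γ := Real.one_le_rpow hx1' hγ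
  have h6 : x ^ γ' = x ^ (γ' - γ) * x ^ γ := by
    rw [← Real.rpow_add hx0]
    congr 1
    ring
  rw [h6]
  nlinarith [mul_le_mul_of_nonneg_right hx (by linarith : (0 : ℝ) ≤ x ^ γ),
    mul_le_mul_of_nonneg_right h4 (by linarith : (0 : ℝ) ≤ x ^ γ)]

theorem tail_tendsto (S : Ser) (hS : Tendsto S.M (𝓝[>] 0) atTop) (K : ℕ) :
    Tendsto (tail S K).M (𝓝[>] 0) atTop := by
  have h1 : Tendsto (fun s => S.M s - ∑ k ∈ Finset.range K, ‖S.a k‖) (𝓝[>] 0) atTop :=
    tendsto_atTop_add_const_right _ _ hS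
  refine tendsto_atTop_mono' _ ?_ h1
  filter_upwards [self_mem_nhdsWithin] with s hs
  have h2 := tail_M S K hs
  have h3 := m_le_const S K hs
  linarith

/-- the directions of almost maximal growth are dense -/
theorem dense_ser (S : Ser) (hS : Tendsto S.M (𝓝[>] 0) atTop) {γ : ℝ} (hγ0 : 0 ≤ γ) (hγ1 : γ < 1)
    (θc : ℝ) {ρ : ℝ} (hρ : 0 < ρ) :
    ∃ θ : ℝ, |θ - θc| < ρ ∧ ∀ᶠ s in 𝓝[>] (0 : ℝ), (S.M s) ^ γ ≤ ‖S.F s θ‖ := by
  obtain ⟨R⟩ := exists_par S.q S.one_lt_q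
  set C := R.CV + R.ε / R.r₀ + 2 * R.ε with hC
  obtain ⟨K, -, hK⟩ := S.exists_idx (max (2 * (C / ρ)) 1)
  have hK := hK K le_rfl
  have hK1 : 2 * (C / ρ) < S.lam K := (le_max_left _ _).trans_lt hK
  have hlam := S.lam_pos K
  have hCl : C / S.lam K < ρ / 2 := by
    rw [div_lt_iff₀ hlam]
    rw [← mul_div_assoc, div_lt_iff₀ hρ] at hK1
    linarith
  obtain ⟨θ, h1, h2⟩ := main_loc (tail S K) (tail_tendsto S hS K) R ((γ + 1) / 2) (by linarith)
    (by linarith) θc (ρ / 4) (by positivity)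
  have hl0 : (tail S K).lam 0 = S.lam K := by
    change S.lam (0 + K) = S.lam K
    rw [zero_add]
  rw [hl0] at h1
  have h1' : |θ - θc| ≤ ρ / 4 + C / S.lam K := h1
  refine ⟨θ, by linarith, ?_⟩
  set D := ∑ k ∈ Finset.range K, ‖S.a k‖ with hD
  have hD0 : 0 ≤ D := Finset.sum_nonneg fun _ _ => norm_nonneg _
  have h3 := (tail_tendsto S hS K).eventually
    (absorb (D := D) hγ0 hγ1.le (by linarith : γ < (γ + 1) / 2) hD0)
  filter_upwards [h2, h3, self_mem_nhdsWithin] with s h4 h5 hs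
  have h6 := tail_M S K hs
  have h7 := m_le_const S K hs
  have h8 := P_le_const S K hs θ
  have h9 := tail_F S K hs θ
  have h10 : ‖(tail S K).F s θ‖ ≤ ‖S.F s θ‖ + D := by
    have : (tail S K).F s θ = S.F s θ - S.P K s θ := by rw [h9]; ring
    rw [this]
    exact (norm_sub_le _ _).trans (by linarith)
  have h11 : (S.M s) ^ γ ≤ (D + (tail S K).M s) ^ γ :=
    Real.rpow_le_rpow (S.M_nonneg' s) (by linarith) hγ0
  linarith

end Pool.Agent.H967HG
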